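import Mathlib
import Pool.Agent.Lib.MP_053343_lc.Defs

/-!
Definitions for MP_8fdcc7_lc: ultrafilters on `ω`, p-points and Tukey reducibility in the
sense of a transitive model `M`.
-/

namespace Pool.Agent.Lib.MP_8fdcc7_lc

open Pool.Agent.Lib.MP_053343_lc

/-- The axiom of choice in `M`: every set in `M` has a choice function in `M`. -/
def AC (M : ZFSet.{0}) : Prop :=
  ∀ a ∈ M, ∃ f ∈ M, ∀ x ∈ a, x ≠ ∅ → ∃ y ∈ x, ∀ z, ZFSet.pair x z ∈ f ↔ z = y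

/-- A set of naturals as a subset of `ω`. -/
noncomputable def enc (A : Set ℕ) : ZFSet.{0} := ZFSet.range fun n : A => nat n

/-- The family `S` of subsets of `ω` is an element of `M`. -/
def FamIn (M : ZFSet.{0}) (S : Set (Set ℕ)) : Prop :=
  ∃ s ∈ M, ∀ z, z ∈ s ↔ ∃ A ∈ S, z = enc A

/-- `U` is in `M` and is a nonprincipal ultrafilter on `ω` in the sense of `M`. -/
def Ultra (M : ZFSet.{0}) (U : Set (Set ℕ)) : Prop :=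
  FamIn M U ∧ (∀ A ∈ U, A.Infinite) ∧ (∀ A ∈ U, ∀ B ∈ U, A ∩ B ∈ U) ∧
    (∀ A ∈ U, ∀ B, enc B ∈ M → A ⊆ B → B ∈ U) ∧ ∀ A, enc A ∈ M → A ∈ U ∨ Aᶜ ∈ U

/-- Every sequence in `M` of members of `U` has a pseudo-intersection in `U`. -/
def PPoint (M : ZFSet.{0}) (U : Set (Set ℕ)) : Prop :=
  ∀ A : ℕ → Set ℕ, (∃ g ∈ M, ∀ z, z ∈ g ↔ ∃ n, z = ZFSet.pair (nat n) (enc (A n))) →
    (∀ n, A n ∈ U) → ∃ B ∈ U, ∀ n, (B \ A n).Finite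

/-- `(U, r) ≤_T (U, s)` in `M`: some map `U → U` in `M` sends every `r`-unbounded subset of
`U` lying in `M` to an `s`-unbounded set. -/
def Tukey (M : ZFSet.{0}) (U : Set (Set ℕ)) (r s : Set ℕ → Set ℕ → Prop) : Prop :=
  ∃ F : Set ℕ → Set ℕ,
    (∃ f ∈ M, ∀ z, z ∈ f ↔ ∃ A ∈ U, z = ZFSet.pair (enc A) (enc (F A))) ∧
      (∀ A ∈ U, F A ∈ U) ∧ ∀ S ⊆ U, FamIn M S →
        (¬ ∃ B ∈ U, ∀ A ∈ S, r A B) → ¬ ∃ B ∈ U, ∀ A ∈ S, s (F A) B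

end Pool.Agent.Lib.MP_8fdcc7_lc
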