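import Mathlib

/-!
The poset of proper free `F_σ` filters on the naturals: countable closure, adding closed
families, the Canjar type extension lemma, and the main density lemma.
-/

namespace Pool.Agent.Lib.MP_8fdcc7_lc

open Filter Set Classical

def toSet (b : ℕ → Bool) : Set ℕ := {x | b x = true}

noncomputable def chi (A : Set ℕ) : ℕ → Bool := fun x => decide (x ∈ A)

@[simp] theorem toSet_chi (A : Set ℕ) : toSet (chi A) = A := by
  ext x; simp [toSet, chi]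

/-- Proper free filters generated by countably many compact families. -/
structure Cnd : Type where
  F : Filter ℕ
  free : F ≤ cofinite
  ne : F.NeBot
  gen : ∃ C : ℕ → Set (ℕ → Bool), (∀ n, IsCompact (C n)) ∧ (∀ n, ∀ b ∈ C n, toSet b ∈ F) ∧
    ∀ A ∈ F, ∃ n, ∃ b ∈ C n, toSet b ⊆ A

instance : Preorder Cnd where
  le p q := p.F ≤ q.F
  le_refl _ := le_rfl
  le_trans _ _ _ := le_trans

instance : OrderTop Cnd where
  top := ⟨cofinite, le_rfl, inferInstance, fun n => {chi (Ici n)}, fun _ => isCompact_singleton,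
    fun n b hb => by
      rw [mem_singleton_iff.1 hb, toSet_chi, Nat.cofinite_eq_atTop]; exact Ici_mem_atTop n,
    fun A hA => by
      rw [Nat.cofinite_eq_atTop, mem_atTop_sets] at hA
      obtain ⟨n, hn⟩ := hA
      exact ⟨n, _, rfl, by rw [toSet_chi]; exact hn⟩⟩
  le_top p := p.free

theorem Cnd.mono {p q : Cnd} (h : p ≤ q) {A : Set ℕ} (hA : A ∈ q.F) : A ∈ p.F := h hA

theorem Cnd.nonempty (p : Cnd) {A : Set ℕ} (hA : A ∈ p.F) : A.Nonempty :=
  haveI := p.ne; Filter.nonempty_of_mem hA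

theorem Cnd.ici (p : Cnd) (n : ℕ) : Ici n ∈ p.F :=
  p.free (by rw [Nat.cofinite_eq_atTop]; exact Ici_mem_atTop n)

theorem Cnd.infinite (p : Cnd) {A : Set ℕ} (hA : A ∈ p.F) : A.Infinite := by
  intro h
  obtain ⟨x, h1, h2⟩ := p.nonempty (inter_mem hA (p.free h.compl_mem_cofinite))
  exact h2 h1

theorem sigma_closed (p : ℕ → Cnd) (h : Antitone p) : ∃ q : Cnd, ∀ n, q ≤ p n := by
  have hd : Directed (· ≥ ·) fun n => (p n).F := fun m n =>
    ⟨max m n, h (le_max_left m n), h (le_max_right m n)⟩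
  choose C h1 h2 h3 using fun n => (p n).gen
  refine ⟨⟨⨅ n, (p n).F, (iInf_le _ 0).trans (p 0).free,
    iInf_neBot_of_directed hd fun n => (p n).ne,
    fun m => C m.unpair.1 m.unpair.2, fun m => h1 _ _,
    fun m b hb => mem_iInf_of_mem _ (h2 _ _ b hb), fun A hA => ?_⟩,
    fun n => iInf_le (fun n => (p n).F) n⟩
  obtain ⟨n, hn⟩ := (mem_iInf_of_directed hd A).1 hA
  obtain ⟨k, b, hb, hb'⟩ := h3 n A hn
  exact ⟨Nat.pair n k, b, by simpa using hb, hb'⟩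

theorem decide_all {ι : Type} [Countable ι] (S : ι → Set Cnd)
    (hS : ∀ i, ∀ p ∈ S i, ∀ q ≤ p, q ∈ S i) (p : Cnd) :
    ∃ q ≤ p, ∀ i, q ∈ S i ∨ ∀ r ≤ q, r ∉ S i := by
  have hd : ∀ (o : Option ι) (p : Cnd), ∃ r ≤ p, ∀ i, o = some i →
      r ∈ S i ∨ ∀ q ≤ r, q ∉ S i := by
    intro o p
    cases o with
    | none => exact ⟨p, le_rfl, fun i h => by cases h⟩
    | some i =>
      by_cases hp : ∃ q ≤ p, q ∈ S i
      · obtain ⟨q, h1, h2⟩ := hp
        exact ⟨q, h1, fun j h => by cases h; exact Or.inl h2⟩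
      · push Not at hp
        exact ⟨p, le_rfl, fun j h => by cases h; exact Or.inr hp⟩
  choose nx h1 h2 using hd
  obtain ⟨e, he⟩ := exists_surjective_nat (Option ι)
  let s : ℕ → Cnd := fun n => Nat.rec p (fun k r => nx (e k) r) n
  obtain ⟨q, hq⟩ := sigma_closed s (antitone_nat_of_succ_le fun k => h1 (e k) (s k))
  refine ⟨q, hq 0, fun i => ?_⟩
  obtain ⟨k, hk⟩ := he (some i)
  rcases h2 (e k) (s k) i hk with h | h
  · exact Or.inl (hS i _ h q (hq (k + 1)))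
  · exact Or.inr fun r hr => h r (hr.trans (hq (k + 1)))

theorem dense_all {ι : Type} [Countable ι] (S : ι → Set Cnd)
    (hS : ∀ i, ∀ p ∈ S i, ∀ q ≤ p, q ∈ S i) (p : Cnd) (hd : ∀ i, ∀ q ≤ p, ∃ r ≤ q, r ∈ S i) :
    ∃ q ≤ p, ∀ i, q ∈ S i := by
  obtain ⟨q, hq, h⟩ := decide_all S hS p
  refine ⟨q, hq, fun i => (h i).resolve_right fun h' => ?_⟩
  obtain ⟨r, r1, r2⟩ := hd i q hq
  exact h' r r1 r2

/-- Adding a closed family of sets. -/
theorem extend (p : Cnd) (T : Set (ℕ → Bool)) (hT : IsClosed T)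
    (hpos : ∀ A ∈ p.F, ∀ (k : ℕ) (z : Fin k → ℕ → Bool), (∀ i, z i ∈ T) →
      ∃ x ∈ A, ∀ i, z i x = true) : ∃ q ≤ p, ∀ z ∈ T, toSet z ∈ q.F := by
  let F : Filter ℕ :=
    { sets := {E | ∃ A ∈ p.F, ∃ l : List (ℕ → Bool), (∀ z ∈ l, z ∈ T) ∧
        ∀ x ∈ A, (∀ z ∈ l, z x = true) → x ∈ E}
      univ_sets := ⟨univ, univ_mem, [], by simp, by simp⟩
      sets_of_superset := fun ⟨A, hA, l, h1, h2⟩ h => ⟨A, hA, l, h1, fun x a b => h (h2 x a b)⟩
      inter_sets := fun ⟨A, hA, l, h1, h2⟩ ⟨B, hB, l', h3, h4⟩ =>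
        ⟨A ∩ B, inter_mem hA hB, l ++ l',
          fun z hz => (List.mem_append.1 hz).elim (h1 z) (h3 z),
          fun x a b => ⟨h2 x a.1 fun z hz => b z (List.mem_append_left _ hz),
            h4 x a.2 fun z hz => b z (List.mem_append_right _ hz)⟩⟩ }
  have hle : F ≤ p.F := fun A hA => ⟨A, hA, [], by simp, fun x a _ => a⟩
  obtain ⟨C, h1, h2, h3⟩ := p.gen
  let g : ∀ k : ℕ, (ℕ → Bool) × (Fin k → ℕ → Bool) → ℕ → Bool :=
    fun k w x => w.1 x && decide (∀ i, w.2 i x = true)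
  have hg : ∀ k, Continuous (g k) := by
    intro k
    refine continuous_pi fun x => ?_
    have : (fun w => g k w x) = (fun v : Bool × (Fin k → Bool) =>
        v.1 && decide (∀ i, v.2 i = true)) ∘ fun w => (w.1 x, fun i => w.2 i x) := rfl
    rw [this]
    exact continuous_of_discreteTopology.comp (by fun_prop)
  refine ⟨⟨F, hle.trans p.free, ?_,
    fun m => g m.unpair.2 '' (C m.unpair.1 ×ˢ Set.pi univ fun _ => T), fun m => ?_, ?_, ?_⟩,
    hle, fun z hz => ⟨univ, univ_mem, [z], by simpa using hz, fun x _ h => by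
      simpa [toSet] using h⟩⟩
  · rw [neBot_iff, Ne, ← empty_mem_iff_bot]
    rintro ⟨A, hA, l, a, b⟩
    obtain ⟨x, x1, x2⟩ := hpos A hA l.length l.get fun i => a _ (List.get_mem l i)
    refine b x x1 fun z hz => ?_
    obtain ⟨i, rfl⟩ := List.get_of_mem hz
    exact x2 i
  · exact ((h1 _).prod (isCompact_univ_pi fun _ => hT.isCompact)).image (hg _)
  · rintro m _ ⟨⟨b, z⟩, ⟨hb, hz⟩, rfl⟩
    refine ⟨toSet b, h2 _ b hb, List.ofFn z, ?_, fun x a c => ?_⟩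
    · intro y hy
      obtain ⟨i, rfl⟩ := List.mem_ofFn.1 hy
      exact hz i trivial
    · simp only [toSet, g, mem_ofPred_eq, Bool.and_eq_true, decide_eq_true_eq]
      exact ⟨a, fun i => c _ (List.mem_ofFn.2 ⟨i, rfl⟩)⟩
  · rintro E ⟨A, hA, l, a, c⟩
    obtain ⟨n, b, hb, hb'⟩ := h3 A hA
    refine ⟨Nat.pair n l.length, g l.length (b, l.get), ?_, fun x hx => ?_⟩
    · beta_reduce
      rw [Nat.unpair_pair]
      exact ⟨(b, l.get), ⟨hb, fun i _ => a _ (List.get_mem l i)⟩, rfl⟩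
    · simp only [toSet, g, mem_ofPred_eq, Bool.and_eq_true, decide_eq_true_eq] at hx
      refine c x (hb' hx.1) fun z hz => ?_
      obtain ⟨i, rfl⟩ := List.get_of_mem hz
      exact hx.2 i

/-- `A` is positive for `p`. -/
def Pos (p : Cnd) (A : Set ℕ) : Prop := ∀ B ∈ p.F, (B ∩ A).Nonempty

theorem add_set {p : Cnd} {A : Set ℕ} (h : Pos p A) : ∃ q ≤ p, A ∈ q.F := by
  obtain ⟨q, h1, h2⟩ := extend p {chi A} isClosed_singleton (by
    intro B hB k z hz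
    obtain ⟨x, x1, x2⟩ := h B hB
    exact ⟨x, x1, fun i => by rw [mem_singleton_iff.1 (hz i)]; simpa [chi] using x2⟩)
  exact ⟨q, h1, by simpa using h2 _ rfl⟩

theorem pos_or (p : Cnd) (A : Set ℕ) : Pos p A ∨ Aᶜ ∈ p.F := by
  by_cases h : Pos p A
  · exact Or.inl h
  · right
    simp only [Pos, not_forall] at h
    obtain ⟨B, hB, h⟩ := h
    exact mem_of_superset hB fun x hx hA => h ⟨x, hx, hA⟩

theorem decide_set (p : Cnd) (A : Set ℕ) : ∃ q ≤ p, A ∈ q.F ∨ Aᶜ ∈ q.F := by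
  rcases pos_or p A with h | h
  · obtain ⟨q, h1, h2⟩ := add_set h
    exact ⟨q, h1, Or.inl h2⟩
  · exact ⟨p, le_rfl, Or.inr h⟩

theorem pos_of_cover (p : Cnd) {k : ℕ} (W : Fin k → Set ℕ) {A : Set ℕ} (hA : A ∈ p.F)
    (h : ∀ x ∈ A, ∃ i, x ∈ W i) : ∃ i, Pos p (W i) := by
  by_contra hc
  push Not at hc
  have : ⋂ i, (W i)ᶜ ∈ p.F := iInter_mem.2 fun i => (pos_or p _).resolve_left (hc i)
  obtain ⟨x, x1, x2⟩ := p.nonempty (inter_mem hA this)
  obtain ⟨i, hi⟩ := h x x1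
  exact mem_iInter.1 x2 i hi

/-- The Canjar type extension lemma. -/
theorem canjar (p : Cnd) (X : ℕ → Set (Finset ℕ))
    (hX : ∀ n A, Pos p A → ∃ s ∈ X n, (s : Set ℕ) ⊆ A) :
    ∃ q ≤ p, ∃ Y : ℕ → Finset (Finset ℕ), (∀ n, ∀ s ∈ Y n, s ∈ X n) ∧
      ∀ r ≤ q, ∀ B ∈ r.F, ∃ n, ∃ s ∈ Y n, (s : Set ℕ) ⊆ B := by
  obtain ⟨C, h1, h2, h3⟩ := p.gen
  have key : ∀ m : ℕ, ∃ Y : Finset (Finset ℕ), (∀ s ∈ Y, s ∈ X m) ∧
      ∀ b ∈ C m.unpair.1, ∀ w : Fin m.unpair.2 → ℕ → Bool,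
        (∀ x, b x = true → ∃ i, w i x = true) → ∃ s ∈ Y, ∃ i, ∀ x ∈ s, w i x = true := by
    intro m
    let K : Set ((ℕ → Bool) × (Fin m.unpair.2 → ℕ → Bool)) :=
      (C m.unpair.1 ×ˢ univ) ∩ {v | ∀ x, v.1 x = true → ∃ i, v.2 i x = true}
    have hK : IsCompact K := by
      refine ((h1 _).prod isCompact_univ).inter_right ?_
      simp only [ofPred_forall]
      refine isClosed_iInter fun x => ?_
      have h := (isClosed_discrete
        {v : Bool × (Fin m.unpair.2 → Bool) | v.1 = true → ∃ i, v.2 i = true}).preimage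
        (f := fun w : (ℕ → Bool) × (Fin m.unpair.2 → ℕ → Bool) => (w.1 x, fun i => w.2 i x))
        (by fun_prop)
      exact h
    obtain ⟨t, ht⟩ := hK.elim_finite_subcover
      (fun s : X m => {v | ∃ i, ∀ x ∈ s.1, v.2 i x = true}) (by
        intro s
        simp only [ofPred_exists]
        refine isOpen_iUnion fun i => ?_
        simp only [ofPred_forall]
        refine isOpen_biInter_finset fun x _ => ?_
        exact (isOpen_discrete {true}).preimage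
          (f := fun w : (ℕ → Bool) × (Fin m.unpair.2 → ℕ → Bool) => w.2 i x) (by fun_prop)) (by
        rintro ⟨b, w⟩ ⟨⟨hb, _⟩, hw⟩
        obtain ⟨i, hi⟩ := pos_of_cover p (fun i => toSet (w i)) (h2 _ b hb) hw
        obtain ⟨s, s1, s2⟩ := hX m _ hi
        exact mem_iUnion.2 ⟨⟨s, s1⟩, i, fun x hx => s2 hx⟩)
    refine ⟨t.image Subtype.val, ?_, fun b hb w hw => ?_⟩
    · intro s hs
      obtain ⟨s', _, rfl⟩ := Finset.mem_image.1 hs
      exact s'.2
    · obtain ⟨s, s1, s2⟩ := mem_iUnion₂.1 (ht (show (b, w) ∈ K from ⟨⟨hb, trivial⟩, hw⟩))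
      exact ⟨s.1, Finset.mem_image_of_mem _ s1, s2⟩
  choose Y y1 y2 using key
  obtain ⟨q, q1, q2⟩ := extend p {z | ∀ n, ∀ s ∈ Y n, ∃ x ∈ s, z x = true} (by
    simp only [ofPred_forall]
    refine isClosed_iInter fun n => isClosed_iInter fun s => isClosed_iInter fun _ => ?_
    have : {z : ℕ → Bool | ∃ x ∈ s, z x = true} = ⋃ x ∈ s, {z | z x = true} := by
      ext z; simp
    rw [this]
    exact isClosed_biUnion_finset fun x _ =>
      (isClosed_discrete {true}).preimage (f := fun z : ℕ → Bool => z x) (by fun_prop)) (by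
    intro A hA k z hz
    by_contra hc
    push Not at hc
    obtain ⟨n, b, hb, hb'⟩ := h3 A hA
    have := y2 (Nat.pair n k)
    rw [Nat.unpair_pair] at this
    obtain ⟨s, s1, i, s2⟩ := this b hb (fun i x => !z i x) fun x hx => by
      obtain ⟨i, hi⟩ := hc x (hb' hx)
      exact ⟨i, by simpa using hi⟩
    obtain ⟨x, x1, x2⟩ := hz i _ s s1
    have := s2 x x1
    simp [x2] at this)
  refine ⟨q, q1, Y, y1, fun r hr B hB => ?_⟩
  by_contra hc
  push Not at hc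
  have : toSet (chi Bᶜ) ∈ q.F := q2 _ fun n s hs => by
    obtain ⟨x, x1, x2⟩ := not_subset.1 (hc n s hs)
    exact ⟨x, x1, by simpa [chi] using x2⟩
  rw [toSet_chi] at this
  obtain ⟨x, x1, x2⟩ := r.nonempty (inter_mem hB (Cnd.mono hr this))
  exact x2 x1

theorem pseudo_nat (p : Cnd) (B : ℕ → Set ℕ) (hB : ∀ m, B m ∈ p.F) :
    ∃ q ≤ p, ∃ A ∈ q.F, ∀ m, (A \ B m).Finite := by
  obtain ⟨q, q1, Y, y1, y2⟩ := canjar p (fun n => {s | ∃ x, s = {x} ∧ ∀ m ≤ n, x ∈ B m}) (by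
    intro n A hA
    obtain ⟨x, x1, x2⟩ := hA (⋂ m ∈ Finset.range (n + 1), B m)
      ((biInter_finset_mem _).2 fun m _ => hB m)
    exact ⟨{x}, ⟨x, rfl, fun m hm => mem_iInter₂.1 x1 m (Finset.mem_range.2 (by omega))⟩,
      by simpa using x2⟩)
  obtain ⟨r, r1, r2⟩ := add_set (p := q) (A := {x | ∃ n, {x} ∈ Y n}) (by
    intro E hE
    obtain ⟨n, s, s1, s2⟩ := y2 q le_rfl E hE
    obtain ⟨x, rfl, -⟩ := y1 n s s1
    exact ⟨x, by simpa using s2, n, s1⟩)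
  refine ⟨r, r1.trans q1, _, r2, fun m => ?_⟩
  refine (((Finset.range m).biUnion fun n => (Y n).biUnion id).finite_toSet).subset ?_
  rintro x ⟨⟨n, hn⟩, hx⟩
  obtain ⟨y, e, hy⟩ := y1 n _ hn
  have : x = y := Finset.singleton_injective e
  subst this
  have : n < m := by
    by_contra hc
    exact hx (hy m (by omega))
  simp only [Finset.coe_biUnion, Finset.coe_range, mem_iUnion]
  exact ⟨n, this, {x}, hn, by simp⟩

theorem pseudo {ι : Type} [Countable ι] (p : Cnd) (B : ι → Set ℕ) (hB : ∀ i, B i ∈ p.F) :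
    ∃ q ≤ p, ∃ A ∈ q.F, ∀ i, (A \ B i).Finite := by
  obtain ⟨e, he⟩ := exists_surjective_nat (Option ι)
  obtain ⟨q, q1, A, a1, a2⟩ := pseudo_nat p (fun m => (e m).elim univ B) fun m => by
    cases e m with
    | none => exact univ_mem
    | some i => exact hB i
  refine ⟨q, q1, A, a1, fun i => ?_⟩
  obtain ⟨m, hm⟩ := he (some i)
  have := a2 m
  rwa [hm] at this

theorem gaps (p : Cnd) (B : ℕ → Set ℕ) (hB : ∀ m, B m ∈ p.F) :
    ∃ q ≤ p, ∃ A ∈ q.F, ∀ k, ∃ m ≥ k, ∀ x ∈ A, m ≤ x → x ∈ B m := by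
  obtain ⟨q, q1, A, a1, a2⟩ := pseudo_nat p B hB
  have : ∀ m, ∃ m' > m, ∀ x ∈ A, m' ≤ x → x ∈ B m := by
    intro m
    obtain ⟨b, hb⟩ := (a2 m).bddAbove
    refine ⟨max m b + 1, by omega, fun x x1 x2 => ?_⟩
    by_contra hc
    have := hb ⟨x1, hc⟩
    omega
  choose nx n1 n2 using this
  let s : ℕ → ℕ := fun i => nx^[i] 0
  have hs : ∀ i, s (i + 1) = nx (s i) := fun i => Function.iterate_succ_apply' _ _ _
  have sm : StrictMono s := strictMono_nat_of_lt_succ fun i => by rw [hs]; exact n1 _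
  let E : Set ℕ := {x | ∃ i, s (2 * i) ≤ x ∧ x < s (2 * i + 1)}
  obtain ⟨r, r1, h | h⟩ := decide_set q E
  · refine ⟨r, r1.trans q1, A ∩ E, inter_mem (Cnd.mono r1 a1) h, fun k =>
      ⟨s (2 * k + 1), (sm.id_le _).trans' (by simp only [id]; omega), ?_⟩⟩
    rintro x ⟨x1, i, i1, i2⟩ hx
    have : 2 * k + 1 < 2 * i + 1 := sm.lt_iff_lt.1 (hx.trans_lt i2)
    refine n2 _ x x1 ?_
    rw [← hs]
    exact (sm.monotone (by omega)).trans i1
  · refine ⟨r, r1.trans q1, A ∩ Eᶜ, inter_mem (Cnd.mono r1 a1) h, fun k =>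
      ⟨s (2 * k), (sm.id_le _).trans' (by simp only [id]; omega), ?_⟩⟩
    rintro x ⟨x1, x2⟩ hx
    refine n2 _ x x1 ?_
    rw [← hs]
    by_contra hc
    exact x2 ⟨k, hx, by omega⟩

/-- The main density lemma. -/
theorem main_density (R : Cnd → (ℕ → ℕ) → Set ℕ → Prop)
    (hm : ∀ p q h B, q ≤ p → R p h B → R q h B) (p : Cnd)
    (ht : ∀ q ≤ p, ∀ h, ∃ r ≤ q, ∃ B ∈ r.F, R r h B) :
    ∃ q ≤ p, ∃ A ∈ q.F, ∃ n, ∀ j, ∃ h B, R q h B ∧ A ⊆ B ∧ j ≤ h n := by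
  by_contra hc
  push Not at hc
  let Big : Cnd → Set ℕ → ℕ → ℕ → Prop := fun q A n j => ∃ h B, R q h B ∧ A ⊆ B ∧ j ≤ h n
  obtain ⟨q₁, q1, hq⟩ := decide_all (ι := Finset ℕ × ℕ × ℕ)
    (fun i => {q | ∃ B ∈ q.F, Big q (↑i.1 ∪ B) i.2.1 i.2.2}) (by
      rintro i q ⟨B, b1, h, B', b2, b3⟩ r hr
      exact ⟨B, Cnd.mono hr b1, h, B', hm _ _ _ _ hr b2, b3⟩) p
  let good : Finset ℕ → ℕ → ℕ → Prop := fun s n j => ∀ r ≤ q₁, ∀ B ∈ r.F, ¬ Big r (↑s ∪ B) n j
  have : ∀ s n j, ∃ B ∈ q₁.F, ¬ good s n j → Big q₁ (↑s ∪ B) n j := by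
    intro s n j
    rcases hq (s, n, j) with ⟨B, b1, b2⟩ | h
    · exact ⟨B, b1, fun _ => b2⟩
    · exact ⟨univ, univ_mem, fun h' => (h' fun r hr B hB hb => h r hr ⟨B, hB, hb⟩).elim⟩
  choose B b1 b2 using this
  obtain ⟨q₂, q2, A, a1, a2⟩ := gaps q₁ (fun m => ⋂ s ∈ (Finset.range m).powerset,
      ⋂ n ∈ Finset.range (m + 1), ⋂ j ∈ Finset.range (m + 1), B s n j) fun m =>
    (biInter_finset_mem _).2 fun s _ => (biInter_finset_mem _).2 fun n _ =>
      (biInter_finset_mem _).2 fun j _ => b1 s n j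
  obtain ⟨q₄, q4, Y, y1, y2⟩ := canjar q₂ (fun n => {s | ∃ j, good s n j}) (by
    intro n E hE
    obtain ⟨q₃, q3, hE'⟩ := add_set hE
    obtain ⟨j, hj⟩ := hc q₃ (q3.trans (q2.trans q1)) (E ∩ A) (inter_mem hE' (Cnd.mono q3 a1)) n
    obtain ⟨m, m1, m2⟩ := a2 (max n j)
    refine ⟨(Finset.range m).filter (· ∈ E ∩ A), ⟨j, ?_⟩, fun x hx => ?_⟩
    · by_contra hg
      obtain ⟨h, B', c1, c2, c3⟩ := b2 _ n j hg
      refine absurd c3 (not_le.2 (hj h B' (hm _ _ _ _ (q3.trans q2) c1) fun x hx => c2 ?_))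
      by_cases hxm : x < m
      · left; simpa using ⟨hxm, hx⟩
      · right
        have := m2 x hx.2 (by omega)
        simp only [mem_iInter] at this
        exact this _ (Finset.mem_powerset.2 (Finset.filter_subset _ _)) n
          (Finset.mem_range.2 (by omega)) j (Finset.mem_range.2 (by omega))
    · exact (Finset.mem_filter.1 hx).2.1)
  have : ∀ n s, ∃ j, s ∈ Y n → good s n j := by
    intro n s
    by_cases hs : s ∈ Y n
    · obtain ⟨j, hj⟩ := y1 n s hs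
      exact ⟨j, fun _ => hj⟩
    · exact ⟨0, fun h => (hs h).elim⟩
  choose J hJ using this
  obtain ⟨q₅, q5, B', c1, c2⟩ := ht q₄ (q4.trans (q2.trans q1)) fun n => (Y n).sup (J n)
  obtain ⟨n, s, s1, s2⟩ := y2 q₅ q5 B' c1
  exact hJ n s s1 q₅ (q5.trans (q4.trans q2)) B' c1
    ⟨_, B', c2, union_subset s2 subset_rfl, Finset.le_sup (f := J n) s1⟩

end Pool.Agent.Lib.MP_8fdcc7_lc
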