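import Mathlib
import Pool.Agent.Shared.Forcing
import Pool.Agent.Lib.MP_8fdcc7_lc.Defs
import Pool.Agent.Lib.MP_8fdcc7_lc.Poset

/-!
The Fubini square of the generic ultrafilter for `F_σ` filters.
-/

namespace Pool.Agent.Lib.MP_8fdcc7_lc

open Filter Set Classical Pool.Agent.Lib.MP_053343_lc Pool.Agent.Lib.MP_053343_lc.Name
  Pool.Agent.Shared.Forcing

theorem mem_enc {A : Set ℕ} {x : ZFSet} : x ∈ enc A ↔ ∃ n ∈ A, x = nat n := by
  unfold enc
  rw [ZFSet.mem_range]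
  exact ⟨fun ⟨a, h⟩ => ⟨a.1, a.2, h.symm⟩, fun ⟨a, h1, h⟩ => ⟨⟨a, h1⟩, h.symm⟩⟩

theorem nat_mem_enc {A : Set ℕ} {n : ℕ} : nat n ∈ enc A ↔ n ∈ A := by
  rw [mem_enc]
  exact ⟨fun ⟨m, h1, h⟩ => by rwa [nat_inj h], fun h => ⟨n, h, rfl⟩⟩

theorem enc_inj {A B : Set ℕ} (h : enc A = enc B) : A = B := by
  ext n
  rw [← nat_mem_enc, h, nat_mem_enc]

theorem natN_eq (n : ℕ) : (natN n : Name Cnd) = setN fun i : Fin n => natN i := by rw [natN]

theorem feq_natN {n : ℕ} : ∀ {m : ℕ} {p : Cnd}, FEq (natN n) (natN m) p → n = m := by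
  induction n using Nat.strong_induction_on with
  | h n ih =>
    intro m p h
    rw [natN_eq n, natN_eq m, feq_iff] at h
    rcases lt_trichotomy n m with hl | hl | hl
    · obtain ⟨r, _, i, _, h'⟩ := h.2 (⟨n, hl⟩ : Fin m) p le_rfl le_top
      exact absurd (ih _ i.2 h') (Nat.ne_of_lt i.2)
    · exact hl
    · obtain ⟨r, _, i, _, h'⟩ := h.1 (⟨m, hl⟩ : Fin n) p le_rfl le_top
      exact absurd (ih _ hl h').symm (Nat.ne_of_lt i.2)

def realN (A : Set ℕ) : Name Cnd := setN fun n : A => natN n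

def dR (τ : Name Cnd) : Set ℕ := {n | FMem (natN n) τ ⊤}

@[simp] theorem dR_realN (A : Set ℕ) : dR (realN A) = A := by
  ext n
  constructor
  · rintro ⟨j, _, h⟩
    rw [feq_natN h]; exact j.2
  · exact fun h => ⟨⟨n, h⟩, le_rfl, FEq.refl _ _⟩

def sec (E : Set ℕ) (a : ℕ) : Set ℕ := {b | Nat.pair a b ∈ E}

def InU (p : Cnd) (E : Set ℕ) : Prop := {a | sec E a ∈ p.F} ∈ p.F

theorem InU.mono {p q : Cnd} {E E' : Set ℕ} (h : InU p E) (hq : q ≤ p) (hE : E ⊆ E') :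
    InU q E' :=
  mem_of_superset (Cnd.mono hq h) fun _ ha => mem_of_superset (Cnd.mono hq ha) fun _ hb => hE hb

theorem InU.inter {p : Cnd} {E E' : Set ℕ} (h : InU p E) (h' : InU p E') : InU p (E ∩ E') :=
  mem_of_superset (inter_mem h h') fun _ ha => inter_mem ha.1 ha.2

theorem infinite_of_sec {E : Set ℕ} {a : ℕ} (h : (sec E a).Infinite) : E.Infinite :=
  fun hE => h (hE.preimage (f := Nat.pair a) fun _ _ _ _ e => (Nat.pair_eq_pair.1 e).2)

theorem decide_U (p : Cnd) (E : Set ℕ) : ∃ q ≤ p, InU q E ∨ InU q Eᶜ := by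
  obtain ⟨q, q1, q2⟩ := dense_all (fun a : ℕ => {q | sec E a ∈ q.F ∨ (sec E a)ᶜ ∈ q.F})
    (fun a p hp q hq => hp.imp (Cnd.mono hq) (Cnd.mono hq)) p fun a q _ => decide_set q _
  obtain ⟨r, r1, h | h⟩ := decide_set q {a | sec E a ∈ q.F}
  · exact ⟨r, r1.trans q1, Or.inl (mem_of_superset h fun a ha => Cnd.mono r1 ha)⟩
  · exact ⟨r, r1.trans q1, Or.inr (mem_of_superset h fun a ha =>
      Cnd.mono r1 ((q2 a).resolve_left ha))⟩

def Ah (h : ℕ → ℕ) : Set ℕ := {x | ∀ i ≤ x.unpair.1, h i ≤ x.unpair.2}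

theorem inU_Ah (p : Cnd) (h : ℕ → ℕ) : InU p (Ah h) := by
  refine mem_of_superset univ_mem fun a _ => ?_
  refine mem_of_superset (p.ici ((Finset.range (a + 1)).sup h)) fun b hb i hi => ?_
  simp only [Nat.unpair_pair] at hi ⊢
  exact (Finset.le_sup (f := h) (Finset.mem_range.2 (by omega))).trans hb

def Col (k : ℕ) : Set ℕ := {x | k ≤ x.unpair.1}

theorem inU_Col (p : Cnd) (k : ℕ) : InU p (Col k) := by
  refine mem_of_superset (p.ici k) fun a ha => mem_of_superset univ_mem fun b _ => ?_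
  simpa [sec, Col] using ha

def UN : Name Cnd := ⟨{x : Set ℕ × Cnd // InU x.2 x.1}, fun x => realN x.1.1, fun x => x.1.2⟩

def IdN : Name Cnd := ⟨{x : Set ℕ × Cnd // InU x.2 x.1},
  fun x => pairN (realN x.1.1) (realN x.1.1), fun x => x.1.2⟩

def ColN : Name Cnd := setN fun k : ℕ => pairN (natN k) (realN (Col k))

def Rl (f : Name Cnd) (q : Cnd) (h : ℕ → ℕ) (B : Set ℕ) : Prop :=
  ∃ E, FMem (pairN (realN (Ah h)) (realN E)) f q ∧ ∀ a ∈ B, sec E a ∈ q.F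

def Bad (f : Name Cnd) (q : Cnd) (h : ℕ → ℕ) : Prop := ∀ r ≤ q, ¬ ∃ B ∈ r.F, Rl f r h B

def Wit (f : Name Cnd) (q : Cnd) (h : ℕ → ℕ → ℕ) (E : ℕ → Set ℕ) (E' : Set ℕ) : Prop :=
  (∀ j, FMem (pairN (realN (Ah (h j))) (realN (E j))) f q) ∧ (∃ n, ∀ j, j ≤ h j n) ∧
    InU q E' ∧ ∀ j, (E' \ E j).Finite

theorem tukey_dense (f : Name Cnd) (p : Cnd) :
    ∃ q ≤ p, (∃ h, Bad f q h) ∨ ∃ h E E', Wit f q h E E' := by
  by_cases hb : ∃ q ≤ p, ∃ h, Bad f q h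
  · obtain ⟨q, q1, q2⟩ := hb
    exact ⟨q, q1, Or.inl q2⟩
  obtain ⟨q, q1, A, a1, n, hn⟩ := main_density (Rl f) (by
    rintro p q h B hq ⟨E, e1, e2⟩
    exact ⟨E, e1.mono hq, fun a ha => Cnd.mono hq (e2 a ha)⟩) p (by
    intro q hq h
    by_contra hc
    exact hb ⟨q, hq, h, fun r hr h' => hc ⟨r, hr, h'⟩⟩)
  choose h B hR hA hj using hn
  choose E e1 e2 using hR
  obtain ⟨r, r1, W, w1, w2⟩ := pseudo (ι := A × ℕ) q (fun i => sec (E i.2) i.1)
    fun i => e2 i.2 _ (hA i.2 i.1.2)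
  refine ⟨r, r1.trans q1, Or.inr ⟨h, E,
    {x | x.unpair.1 ∈ A ∧ x.unpair.2 ∈ W ∧ ∀ j ≤ x.unpair.1, x ∈ E j},
    fun j => (e1 j).mono r1, ⟨n, hj⟩, ?_, fun j => ?_⟩⟩
  · refine mem_of_superset (Cnd.mono r1 a1) fun a ha => ?_
    have : W ∩ ⋂ j ∈ Finset.range (a + 1), sec (E j) a ∈ r.F :=
      inter_mem w1 ((biInter_finset_mem _).2 fun j _ => Cnd.mono r1 (e2 j a (hA j ha)))
    refine mem_of_superset this fun b hb => ?_
    simp only [sec, mem_ofPred_eq, Nat.unpair_pair]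
    exact ⟨ha, hb.1, fun j hj => mem_iInter₂.1 hb.2 j (Finset.mem_range.2 (by omega))⟩
  · have : (⋃ a ∈ {a | a < j ∧ a ∈ A}, Nat.pair a '' (W \ sec (E j) a)).Finite :=
      ((finite_lt_nat j).subset fun a ha => ha.1).biUnion fun a ha =>
        (w2 (⟨a, ha.2⟩, j)).image _
    refine this.subset ?_
    rintro x ⟨⟨x1, x2, x3⟩, x4⟩
    refine mem_biUnion (x := x.unpair.1) ⟨?_, x1⟩ ⟨x.unpair.2, ⟨x2, ?_⟩, Nat.pair_unpair x⟩
    · by_contra hc
      exact x4 (x3 j (by omega))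
    · simpa [sec] using x4

inductive UR : Type
  | real | U | id | col | inter | compl | bad | wit
  deriving Countable

def UR.ev : UR → List (Name Cnd) → Name Cnd → Prop
  | .real, l, x => x = realN {n | FMem (natN n) (l.getD 1 empty) (dC (l.getD 0 empty))}
  | .U, _, x => x = UN
  | .id, _, x => x = IdN
  | .col, _, x => x = ColN
  | .inter, l, x => x = realN (dR (l.getD 0 empty) ∩ dR (l.getD 1 empty))
  | .compl, l, x => x = realN (dR (l.getD 0 empty))ᶜ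
  | .bad, l, x => ∃ h, Bad (l.getD 1 empty) (dC (l.getD 0 empty)) h ∧ x = realN (Ah h)
  | .wit, l, x => ∃ h E E', Wit (l.getD 1 empty) (dC (l.getD 0 empty)) h E E' ∧
      x = pairN (setN fun j => realN (Ah (h j))) (pairN (setN fun j => realN (E j)) (realN E'))

inductive UD : Type
  | real | ultra | tuk
  deriving Countable

def UD.ev : UD → List (Name Cnd) → Set Cnd
  | .real, l => {p | ∀ n, FMem (natN n) (l.getD 0 empty) p ∨
      ∀ q ≤ p, ¬ FMem (natN n) (l.getD 0 empty) q}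
  | .ultra, l => {p | InU p (dR (l.getD 0 empty)) ∨ InU p (dR (l.getD 0 empty))ᶜ}
  | .tuk, l => {q | (∃ h, Bad (l.getD 0 empty) q h) ∨ ∃ h E E', Wit (l.getD 0 empty) q h E E'}

section model

variable (C : Ctx UR.ev UD.ev)

theorem ufun (b : UR) {l : List (Name Cnd)} (hl : ∀ x ∈ l, x ∈ C.N) {y : Name Cnd}
    (h : ∀ x, b.ev l x ↔ x = y) : y ∈ C.N := by
  obtain ⟨x, hx, e⟩ := C.uwit b hl ⟨y, (h y).2 rfl⟩
  rwa [(h x).1 e] at hx

theorem val_realN {A : Set ℕ} (h : realN A ∈ C.N) : C.val (realN A) = enc A := by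
  ext x
  rw [realN, C.mem_val_setN h, mem_enc]
  exact ⟨fun ⟨n, h⟩ => ⟨n.1, n.2, by rw [h, C.val_natN]⟩,
    fun ⟨n, h1, h⟩ => ⟨⟨n, h1⟩, by rw [h, C.val_natN]⟩⟩

/-- No new reals. -/
theorem realN_mem {A : Set ℕ} (h : enc A ∈ C.M) : realN A ∈ C.N := by
  obtain ⟨σ, hσ, e⟩ := C.mem_M.1 h
  obtain ⟨p, hp, hd⟩ := C.udense .real (C.one hσ) C.top fun q _ =>
    decide_all (fun n : ℕ => {p | FMem (natN n) σ p}) (fun _ _ hp _ hq => FMem.mono hp hq) q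
  obtain ⟨q, hq, q1, q2⟩ := C.cof p hp
  have : A = {n | FMem (natN n) σ q} := by
    ext n
    rw [← nat_mem_enc, ← e, ← C.val_natN, C.val_mem_iff (C.natN_mem n) hσ]
    constructor
    · rintro ⟨r, hr, h'⟩
      rcases hd n with h1 | h1
      · exact FMem.mono h1 q1
      · obtain ⟨s, _, s1, s2⟩ := C.dir p hp r hr
        exact (h1 s s1 (h'.mono s2)).elim
    · exact fun h' => ⟨q, hq, h'⟩
  rw [this]
  exact ufun C .real (C.two q2 hσ) fun _ => by simp [UR.ev]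

def UU : Set (Set ℕ) := {E | realN E ∈ C.N ∧ ∃ p ∈ C.G, InU p E}

theorem ultra : Ultra C.M (UU C) := by
  have hU : UN ∈ C.N := ufun C .U C.nil fun _ => Iff.rfl
  refine ⟨⟨_, C.val_mem_M hU, fun z => ?_⟩, ?_, ?_, ?_, ?_⟩
  · rw [C.mem_val]
    constructor
    · rintro ⟨⟨⟨E, p⟩, h⟩, a, b, rfl⟩
      exact ⟨E, ⟨a, p, b, h⟩, val_realN C a⟩
    · rintro ⟨E, ⟨a, p, b, h⟩, rfl⟩
      exact ⟨⟨(E, p), h⟩, a, b, (val_realN C a).symm⟩
  · rintro E ⟨_, p, _, h⟩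
    obtain ⟨a, ha⟩ := p.nonempty h
    exact infinite_of_sec (p.infinite ha)
  · rintro E ⟨a, p, b, h⟩ E' ⟨a', p', b', h'⟩
    obtain ⟨r, hr, r1, r2⟩ := C.dir p b p' b'
    exact ⟨ufun C .inter (C.two a a') fun _ => by simp [UR.ev], r, hr,
      (h.mono r1 subset_rfl).inter (h'.mono r2 subset_rfl)⟩
  · rintro E ⟨_, p, b, h⟩ E' hE' hs
    exact ⟨realN_mem C hE', p, b, h.mono le_rfl hs⟩
  · intro E hE
    have a := realN_mem C hE
    obtain ⟨p, hp, h | h⟩ := C.udense .ultra (C.one a) C.top fun q _ => decide_U q _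
    · exact Or.inl ⟨a, p, hp, by simpa using h⟩
    · exact Or.inr ⟨ufun C .compl (C.one a) fun _ => by simp [UR.ev], p, hp, by simpa using h⟩

theorem not_ppoint : ¬ PPoint C.M (UU C) := by
  intro h
  have hc : ColN ∈ C.N := ufun C .col C.nil fun _ => Iff.rfl
  have hk : ∀ k, realN (Col k) ∈ C.N := fun k => C.pairN_right (C.setN_child hc k)
  obtain ⟨B, ⟨_, p, _, b⟩, hB⟩ := h Col ⟨_, C.val_mem_M hc, fun z => by
    rw [ColN, C.mem_val_setN hc]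
    refine exists_congr fun n => ?_
    rw [C.val_pairN (C.setN_child hc n), C.val_natN, val_realN C (hk n)]⟩
    fun k => ⟨hk k, ⊤, C.top, inU_Col _ k⟩
  obtain ⟨a, ha⟩ := p.nonempty b
  refine infinite_of_sec (a := a) ((p.infinite ha).mono fun x hx => ?_) (hB (a + 1))
  exact ⟨hx, by simp [Col]⟩

theorem tukey_id : Tukey C.M (UU C) (fun A B => (B \ A).Finite) (fun A B => B ⊆ A) := by
  have hI : IdN ∈ C.N := ufun C .id C.nil fun _ => Iff.rfl
  refine ⟨id, ⟨_, C.val_mem_M hI, fun z => ?_⟩, fun _ h => h, ?_⟩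
  · rw [C.mem_val]
    constructor
    · rintro ⟨⟨⟨E, p⟩, h⟩, a, b, rfl⟩
      have a' : realN E ∈ C.N := C.pairN_left a
      refine ⟨E, ⟨a', p, b, h⟩, ?_⟩
      change C.val (pairN (realN E) (realN E)) = _
      rw [C.val_pairN a, val_realN C a']; rfl
    · rintro ⟨E, ⟨a, p, b, h⟩, rfl⟩
      refine ⟨⟨(E, p), h⟩, C.pair_memN a a, b, ?_⟩
      change _ = C.val (pairN (realN E) (realN E))
      rw [C.val_pairN (C.pair_memN a a), val_realN C a]; rfl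
  · rintro S _ _ h ⟨B, hB, h'⟩
    refine h ⟨B, hB, fun A hA => ?_⟩
    exact finite_empty.subset fun x hx => hx.2 (h' A hA hx.1)

theorem not_tukey : ¬ Tukey C.M (UU C) (fun A B => B ⊆ A) (fun A B => (B \ A).Finite) := by
  rintro ⟨F, ⟨f, hf, hF⟩, hU, hT⟩
  obtain ⟨φ, hφ, rfl⟩ := C.mem_M.1 hf
  obtain ⟨p, hp, hd⟩ := C.udense .tuk (C.one hφ) C.top fun q _ => tukey_dense φ q
  obtain ⟨q, hq, q1, q2⟩ := C.cof p hp
  rcases hd with ⟨h, hb⟩ | ⟨h, E, E', w1, w2, w3, w4⟩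
  · obtain ⟨x, hx, h, hb, rfl⟩ := C.uwit .bad (C.two q2 hφ)
      ⟨_, h, by
        simp only [List.getD_cons_zero, dC_cN]
        exact fun r hr => hb r (hr.trans q1), rfl⟩
    simp only [List.getD_cons_zero, dC_cN] at hb
    have hA : Ah h ∈ UU C := ⟨hx, ⊤, C.top, inU_Ah _ h⟩
    obtain ⟨a, p', b, c⟩ := hU _ hA
    have m := (hF _).2 ⟨_, hA, rfl⟩
    rw [← val_realN C hx, ← val_realN C a, ← C.val_pairN (C.pair_memN hx a),
      C.val_mem_iff (C.pair_memN hx a) hφ] at m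
    obtain ⟨p'', b', c'⟩ := m
    obtain ⟨r, _, r1, r2, r3⟩ := C.dir3 hq b b'
    exact hb r r1 ⟨_, c.mono r2 subset_rfl, _, c'.mono r3, fun a ha => ha⟩
  · obtain ⟨x, hx, h, E, E', ⟨w1, ⟨n, w2⟩, w3, w4⟩, rfl⟩ := C.uwit .wit (C.two q2 hφ)
      ⟨_, h, E, E', by
        simp only [List.getD_cons_zero, dC_cN]
        exact ⟨fun j => (w1 j).mono q1, w2, w3.mono q1 subset_rfl, w4⟩, rfl⟩
    simp only [List.getD_cons_zero, dC_cN] at w1 w3
    have s1 := C.pairN_left hx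
    have s2 := C.pairN_left (C.pairN_right hx)
    have s3 := C.pairN_right (C.pairN_right hx)
    have a1 : ∀ j, realN (Ah (h j)) ∈ C.N := C.setN_child s1
    have a2 : ∀ j, realN (E j) ∈ C.N := C.setN_child s2
    have hE : ∀ j, F (Ah (h j)) = E j := by
      intro j
      have m := (C.val_mem_iff (C.pair_memN (a1 j) (a2 j)) hφ).2 ⟨q, hq, w1 j⟩
      rw [C.val_pairN (C.pair_memN (a1 j) (a2 j)), val_realN C (a1 j), val_realN C (a2 j)] at m
      obtain ⟨A, _, e⟩ := (hF _).1 m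
      rw [ZFSet.pair_inj] at e
      rw [enc_inj e.1, enc_inj e.2]
    refine hT (range fun j => Ah (h j)) ?_ ⟨_, C.val_mem_M s1, fun z => ?_⟩ ?_
      ⟨E', ⟨s3, q, hq, w3⟩, ?_⟩
    · rintro _ ⟨j, rfl⟩
      exact ⟨a1 j, ⊤, C.top, inU_Ah _ _⟩
    · rw [C.mem_val_setN s1]
      constructor
      · rintro ⟨j, rfl⟩
        exact ⟨_, ⟨j, rfl⟩, val_realN C (a1 j)⟩
      · rintro ⟨_, ⟨j, rfl⟩, rfl⟩
        exact ⟨j, (val_realN C (a1 j)).symm⟩
    · rintro ⟨B, ⟨_, r, _, b⟩, hB⟩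
      obtain ⟨a, ha, han⟩ := r.nonempty (inter_mem b (r.ici n))
      obtain ⟨y, hy⟩ := r.nonempty ha
      have := hB _ ⟨y + 1, rfl⟩ hy n (by simpa using han)
      have := w2 (y + 1)
      simp only [Nat.unpair_pair] at *
      omega
    · rintro _ ⟨j, rfl⟩
      simp only [hE]
      exact w4 j

end model

end Pool.Agent.Lib.MP_8fdcc7_lc
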